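import Pool.Agent.P8H73.RP.Stm

/-!
# Project RP: means of periodic functions
-/

set_option autoImplicit false

namespace Pool.Agent.P8H52.RP

open Finset Pool.Agent.P8H73.RP

lemma per_dvd {r s : ℕ} {f : ℤ → ℝ} (h : Per r f) (hrs : r ∣ s) : Per s f := by
  obtain ⟨c, rfl⟩ := hrs
  intro u
  induction c with
  | zero => simp
  | succ c ih =>
    rw [← ih, ← h (u + ((r * c : ℕ) : ℤ))]
    congr 1
    push_cast
    ring

lemma per_mul {r : ℕ} {f : ℤ → ℝ} (h : Per r f) (u c : ℤ) : f (u + r * c) = f u := by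
  induction c using Int.induction_on with
  | zero => simp
  | succ c ih =>
    rw [← ih, ← h (u + r * (c : ℤ))]
    congr 1
    ring
  | pred c ih =>
    rw [← ih, ← h (u + r * (-(c : ℤ) - 1))]
    congr 1
    ring

lemma per_eq {r : ℕ} {f : ℤ → ℝ} (h : Per r f) {u v : ℤ} (huv : (r : ℤ) ∣ u - v) : f u = f v := by
  obtain ⟨c, hc⟩ := huv
  have : u = v + r * c := by linarith
  rw [this, per_mul h]

lemma per_zmod {r : ℕ} {f : ℤ → ℝ} (h : Per r f) {u v : ℤ} (huv : (u : ZMod r) = v) :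
    f u = f v := by
  apply per_eq h
  rw [← ZMod.intCast_zmod_eq_zero_iff_dvd, Int.cast_sub, huv, sub_self]

lemma sum_zmod {r : ℕ} [NeZero r] (f : ℤ → ℝ) :
    ∑ a ∈ range r, f a = ∑ x : ZMod r, f (x.val : ℤ) := by
  cases r with
  | zero => exact absurd rfl (NeZero.ne 0)
  | succ n => exact Finset.sum_range _

/-- sum over a complete residue system -/
lemma sum_affine {r : ℕ} (hr : 0 < r) {f : ℤ → ℝ} (h : Per r f) (b c : ℤ)
    (hc : IsUnit (c : ZMod r)) : ∑ a ∈ range r, f (b + c * a) = ∑ a ∈ range r, f a := by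
  have : NeZero r := ⟨hr.ne'⟩
  rw [sum_zmod (fun a => f (b + c * a)), sum_zmod f]
  have h1 : ∀ x : ZMod r, f (b + c * (x.val : ℤ)) = f (((b + c * x : ZMod r)).val : ℤ) := by
    intro x
    apply per_zmod h
    push_cast
    rw [ZMod.natCast_zmod_val, ZMod.natCast_zmod_val]
  rw [Finset.sum_congr rfl fun x _ => h1 x]
  obtain ⟨u, hu⟩ := hc
  refine Fintype.sum_equiv ((Units.mulLeft u).trans (Equiv.addLeft (b : ZMod r))) _ _ ?_
  intro x
  simp [← hu]

lemma sum_split (p R : ℕ) (F : ℤ → ℝ) :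
    ∑ u ∈ range (p * R), F u = ∑ b ∈ range R, ∑ a ∈ range p, F (b + R * a) := by
  induction p with
  | zero => simp
  | succ p ih =>
    rw [Nat.succ_mul, Finset.sum_range_add, ih, ← Finset.sum_add_distrib]
    refine Finset.sum_congr rfl fun b _ => ?_
    rw [Finset.sum_range_succ]
    congr 2
    push_cast
    ring

lemma mean_split (p R : ℕ) (F : ℤ → ℝ) :
    mean (p * R) F = mean R (fun b => (∑ a ∈ range p, F (b + R * a)) / p) := by
  unfold mean
  rw [sum_split, ← Finset.sum_div, div_div]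
  push_cast
  rfl

lemma mean_mono {R : ℕ} {f g : ℤ → ℝ} (h : ∀ u : ℕ, u < R → f u ≤ g u) : mean R f ≤ mean R g := by
  unfold mean
  apply div_le_div_of_nonneg_right _ (Nat.cast_nonneg R)
  exact Finset.sum_le_sum fun u hu => h u (Finset.mem_range.mp hu)

lemma mean_congr {R : ℕ} {f g : ℤ → ℝ} (h : ∀ u : ℕ, u < R → f u = g u) : mean R f = mean R g := by
  unfold mean
  rw [Finset.sum_congr rfl fun u hu => h u (Finset.mem_range.mp hu)]

lemma mean_const_mul (R : ℕ) (c : ℝ) (f : ℤ → ℝ) : mean R (fun u => c * f u) = c * mean R f := by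
  unfold mean
  rw [← Finset.mul_sum, mul_div_assoc]

lemma mean_mul_const (R : ℕ) (c : ℝ) (f : ℤ → ℝ) : mean R (fun u => f u * c) = mean R f * c := by
  unfold mean
  rw [← Finset.sum_mul, div_mul_eq_mul_div]

lemma mean_sum {ι : Type*} (R : ℕ) (s : Finset ι) (f : ι → ℤ → ℝ) :
    mean R (fun u => ∑ i ∈ s, f i u) = ∑ i ∈ s, mean R (f i) := by
  unfold mean
  rw [Finset.sum_comm, Finset.sum_div]

lemma mean_nonneg {R : ℕ} {f : ℤ → ℝ} (h : ∀ u : ℕ, 0 ≤ f u) : 0 ≤ mean R f :=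
  div_nonneg (Finset.sum_nonneg fun u _ => h u) (Nat.cast_nonneg R)

/-- a function with a period `q ∣ R` does not depend on `a` in `b + R a` -/
lemma per_const {q R : ℕ} {f : ℤ → ℝ} (h : Per q f) (hq : q ∣ R) (b a : ℤ) :
    f (b + R * a) = f b := per_mul (per_dvd h hq) b a

lemma prod_pos {P : Finset ℕ} (hP : ∀ p ∈ P, p.Prime) : 0 < ∏ p ∈ P, p :=
  Finset.prod_pos fun p hp => (hP p hp).pos

lemma coprime_prod {P : Finset ℕ} (hP : ∀ p ∈ P, p.Prime) {p : ℕ} (hp : p.Prime) (h : p ∉ P) :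
    p.Coprime (∏ q ∈ P, q) := by
  apply Nat.Coprime.prod_right
  intro q hq
  exact (Nat.coprime_primes hp (hP q hq)).mpr fun h1 => h (h1 ▸ hq)

lemma isUnit_of_coprime {p R : ℕ} (h : p.Coprime R) : IsUnit (((R : ℕ) : ℤ) : ZMod p) := by
  rw [Int.cast_natCast, ZMod.isUnit_iff_coprime]
  exact h.symm

/-- multiplicativity of the mean -/
lemma mean_prod (P : Finset ℕ) (hP : ∀ p ∈ P, p.Prime) (G : ℕ → ℤ → ℝ)
    (hG : ∀ p ∈ P, Per p (G p)) :
    mean (∏ p ∈ P, p) (fun u => ∏ p ∈ P, G p u) = ∏ p ∈ P, mean p (G p) := by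
  classical
  induction P using Finset.induction_on with
  | empty => simp [mean]
  | insert p P hp ih =>
    have hpp := hP p (Finset.mem_insert_self p P)
    have hP' : ∀ q ∈ P, q.Prime := fun q hq => hP q (Finset.mem_insert_of_mem hq)
    have hG' : ∀ q ∈ P, Per q (G q) := fun q hq => hG q (Finset.mem_insert_of_mem hq)
    have ih' := ih hP' hG'
    rw [Finset.prod_insert hp, Finset.prod_insert hp, mean_split, ← ih', ← mean_const_mul]
    apply mean_congr
    intro b _
    have h1 : ∀ a : ℕ, ∏ q ∈ insert p P, G q ((b : ℤ) + ((∏ q ∈ P, q : ℕ) : ℤ) * a) =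
        G p ((b : ℤ) + ((∏ q ∈ P, q : ℕ) : ℤ) * a) * ∏ q ∈ P, G q b := by
      intro a
      rw [Finset.prod_insert hp]
      congr 1
      refine Finset.prod_congr rfl fun q hq => ?_
      exact per_const (hG' q hq) (Finset.dvd_prod_of_mem _ hq) _ _
    rw [Finset.sum_congr rfl fun a _ => h1 a, ← Finset.sum_mul,
      sum_affine hpp.pos (hG p (Finset.mem_insert_self p P)) _ _
        (isUnit_of_coprime (coprime_prod hP' hpp hp))]
    unfold mean
    ring

end Pool.Agent.P8H52.RP
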