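import Pool.Agent.P8H52.RP.Van

/-!
# Project RP: Hölder's inequality on products of prime fields
-/

set_option autoImplicit false

namespace Pool.Agent.P8H52.RP

open Finset Pool.Agent.P8H73.RP

lemma cs_many {ι : Type*} [DecidableEq ι] (T : Finset ι) (hT : 2 ≤ T.card) (n : ℕ)
    (x : ι → ℕ → ℝ) (hx : ∀ i a, 0 ≤ x i a) :
    ∑ a ∈ range n, ∏ i ∈ T, x i a ≤ ∏ i ∈ T, Real.sqrt (∑ a ∈ range n, x i a ^ 2) := by
  obtain ⟨i, hi⟩ := Finset.card_pos.mp (show 0 < T.card by omega)
  have h1 : 0 < (T.erase i).card := by
    rw [Finset.card_erase_of_mem hi]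
    omega
  obtain ⟨j, hj⟩ := Finset.card_pos.mp h1
  have hsplit : ∀ F : ι → ℝ, ∏ l ∈ T, F l = F i * F j * ∏ l ∈ (T.erase i).erase j, F l := by
    intro F
    rw [mul_assoc, Finset.mul_prod_erase _ F hj, Finset.mul_prod_erase _ F hi]
  rw [hsplit]
  have h2 : ∀ a ∈ range n, ∏ l ∈ T, x l a ≤ (x i a * x j a) *
      ∏ l ∈ (T.erase i).erase j, Real.sqrt (∑ a ∈ range n, x l a ^ 2) := by
    intro a ha
    rw [hsplit]
    apply mul_le_mul_of_nonneg_left _ (mul_nonneg (hx i a) (hx j a))
    apply Finset.prod_le_prod (fun l _ => hx l a)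
    intro l _
    apply Real.le_sqrt_of_sq_le
    exact Finset.single_le_sum (f := fun a => x l a ^ 2) (fun b _ => sq_nonneg _) ha
  refine (Finset.sum_le_sum h2).trans ?_
  rw [← Finset.sum_mul]
  apply mul_le_mul_of_nonneg_right _ (Finset.prod_nonneg fun l _ => Real.sqrt_nonneg _)
  exact Real.sum_mul_le_sqrt_mul_sqrt _ _ _

lemma per_quot {p R q : ℕ} (hp : p.Prime) (hcop : p.Coprime R) (hpq : p ∣ q) (hq : q / p ∣ R)
    {h : ℤ → ℝ} (hper : Per q h) :
    Per (q / p) (fun b => ∑ a ∈ range p, h (b + R * a)) := by
  intro b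
  obtain ⟨q', rfl⟩ := hpq
  rw [Nat.mul_div_cancel_left _ hp.pos] at hq ⊢
  obtain ⟨c, hc⟩ := hq
  have hphi : Per p (fun a => h (b + q' * a)) := by
    intro a
    have := hper (b + q' * a)
    simp only
    rw [← this]
    congr 1
    push_cast
    ring
  have hcc : p.Coprime c := by
    rw [hc] at hcop
    exact Nat.Coprime.coprime_mul_left_right hcop
  have hu : IsUnit (((c : ℕ) : ℤ) : ZMod p) := isUnit_of_coprime hcc
  have e0 := sum_affine hp.pos hphi 0 (c : ℤ) hu
  have e1 := sum_affine hp.pos hphi 1 (c : ℤ) hu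
  have f0 : ∑ a ∈ range p, h (b + (R : ℤ) * a) =
      ∑ a ∈ range p, h (b + (q' : ℤ) * (0 + (c : ℤ) * a)) := by
    refine Finset.sum_congr rfl fun a _ => ?_
    congr 1
    rw [hc]
    push_cast
    ring
  have f1 : ∑ a ∈ range p, h (b + (q' : ℤ) + (R : ℤ) * a) =
      ∑ a ∈ range p, h (b + (q' : ℤ) * (1 + (c : ℤ) * a)) := by
    refine Finset.sum_congr rfl fun a _ => ?_
    congr 1
    rw [hc]
    push_cast
    ring
  simp only
  rw [f0, f1, e0, e1]

theorem hol : S_HOL := by
  classical
  intro P
  induction P using Finset.induction_on with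
  | empty =>
    intro _ t q f hq _ h0 _
    have hq1 : ∀ i, q i = 1 := fun i => by simpa using hq i
    have hl : (univ.lcm q : ℕ) = 1 := by
      have : univ.lcm q ∣ 1 := Finset.lcm_dvd fun i _ => by rw [hq1 i]
      exact Nat.dvd_one.mp this
    rw [hl]
    simp only [Finset.prod_empty, mean, Finset.range_one, Finset.sum_singleton, Nat.cast_zero,
      Nat.cast_one, div_one, hq1, one_mul]
    apply le_of_eq
    refine Finset.prod_congr rfl fun i _ => ?_
    rw [Real.sqrt_sq (h0 i 0)]
  | insert p P hp ih =>
    intro hP t q f hq hper h0 hcond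
    have hpp := hP p (Finset.mem_insert_self p P)
    have hP' : ∀ q ∈ P, q.Prime := fun q hq => hP q (Finset.mem_insert_of_mem hq)
    have hcop := coprime_prod hP' hpp hp
    rw [Finset.prod_insert hp] at hq ⊢
    set R := ∏ p ∈ P, p with hR
    have hR0 : 0 < R := prod_pos hP'
    have hp0 : (0 : ℝ) < p := by exact_mod_cast hpp.pos
    let g : Fin t → ℤ → ℝ := fun i b => Real.sqrt ((∑ a ∈ range p, f i (b + R * a) ^ 2) / p)
    let q' : Fin t → ℕ := fun i => if p ∣ q i then q i / p else q i
    let f' : Fin t → ℤ → ℝ := fun i => if p ∣ q i then g i else f i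
    have hq'R : ∀ i, q' i ∣ R := by
      intro i
      simp only [q']
      split_ifs with h
      · obtain ⟨c, hc⟩ := h
        rw [hc, Nat.mul_div_cancel_left _ hpp.pos]
        have := hq i
        rw [hc] at this
        exact Nat.dvd_of_mul_dvd_mul_left hpp.pos this
      · exact dvd_of_not hpp (hq i) h
    have hper' : ∀ i, Per (q' i) (f' i) := by
      intro i
      have h1 := hq'R i
      simp only [q', f'] at h1 ⊢
      split_ifs with h
      · rw [if_pos h] at h1
        have h2 : Per (q i) (fun v => f i v ^ 2) := by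
          intro v
          simp only [hper i v]
        have h3 := per_quot hpp hcop h h1 h2
        intro b
        simp only [g]
        have h4 := h3 b
        simp only at h4
        rw [h4]
      · exact hper i
    have h0' : ∀ i u, 0 ≤ f' i u := by
      intro i u
      simp only [f']
      split_ifs
      · exact Real.sqrt_nonneg _
      · exact h0 i u
    have hdiv : ∀ x ∈ P, ∀ i, x ∣ q' i ↔ x ∣ q i := by
      intro x hx i
      have hxp : x.Coprime p := (Nat.coprime_primes (hP' x hx) hpp).mpr fun h => hp (h ▸ hx)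
      simp only [q']
      split_ifs with h
      · obtain ⟨c, hc⟩ := h
        rw [hc, Nat.mul_div_cancel_left _ hpp.pos]
        exact ⟨fun h => h.mul_left _, fun h => hxp.dvd_of_dvd_mul_left h⟩
      · exact Iff.rfl
    have hcond' : ∀ x ∈ P, ∀ i, x ∣ q' i → ∃ j, j ≠ i ∧ x ∣ q' j := by
      intro x hx i hi
      obtain ⟨j, hj, hj'⟩ := hcond x (Finset.mem_insert_of_mem hx) i ((hdiv x hx i).mp hi)
      exact ⟨j, hj, (hdiv x hx j).mpr hj'⟩
    have IH := ih hP' t q' f' hq'R hper' h0' hcond'
    have hfc : ∀ i, ¬ p ∣ q i → ∀ b a : ℤ, f i (b + R * a) = f i b := fun i hi b a =>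
      per_const (hper i) (dvd_of_not hpp (hq i) hi) b a
    have hm : ∀ i, mean R (fun u => f' i u ^ 2) = mean (p * R) (fun u => f i u ^ 2) := by
      intro i
      rw [mean_split]
      apply mean_congr
      intro b _
      simp only [f']
      split_ifs with h
      · simp only [g]
        rw [Real.sq_sqrt]
        exact div_nonneg (Finset.sum_nonneg fun a _ => sq_nonneg _) hp0.le
      · simp only [hfc i h, Finset.sum_const, Finset.card_range, nsmul_eq_mul]
        field_simp
    simp only [hm] at IH
    set M : Fin t → ℝ := fun i => mean (p * R) (fun u => f i u ^ 2) with hM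
    have hM0 : ∀ i, 0 ≤ M i := fun i => mean_nonneg fun u => sq_nonneg _
    set T : Finset (Fin t) := univ.filter (fun i => p ∣ q i) with hT
    -- the lcm
    have hqpos : ∀ i, q i ≠ 0 := by
      intro i h
      have := hq i
      rw [h, zero_dvd_iff] at this
      exact (Nat.mul_pos hpp.pos hR0).ne' this
    have hlq0 : 0 < (univ.lcm q : ℕ) := by
      rw [Nat.pos_iff_ne_zero, Ne, Finset.lcm_eq_zero_iff]
      rintro ⟨i, -, hi⟩
      exact hqpos i hi
    have hlq'0 : 0 < (univ.lcm q' : ℕ) := by
      rw [Nat.pos_iff_ne_zero, Ne, Finset.lcm_eq_zero_iff]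
      rintro ⟨i, -, hi⟩
      have := hq'R i
      rw [hi, zero_dvd_iff] at this
      exact hR0.ne' this
    rcases T.eq_empty_or_nonempty with hTe | hTn
    · have hno : ∀ i, ¬ p ∣ q i := by
        intro i hi
        have : i ∈ T := Finset.mem_filter.mpr ⟨Finset.mem_univ i, hi⟩
        rw [hTe] at this
        simp at this
      have e1 : q' = q := by
        funext i
        simp only [q', if_neg (hno i)]
      have e2 : f' = f := by
        funext i
        simp only [f', if_neg (hno i)]
      rw [e1, e2] at IH
      refine le_trans (le_of_eq ?_) IH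
      rw [mean_split]
      apply mean_congr
      intro b _
      simp only [fun (i : Fin t) (a : ℤ) => hfc i (hno i) b a, Finset.sum_const,
        Finset.card_range, nsmul_eq_mul]
      field_simp
    · have hT2 : 2 ≤ T.card := by
        obtain ⟨i, hi⟩ := hTn
        obtain ⟨j, hj, hj'⟩ := hcond p (Finset.mem_insert_self p P) i (Finset.mem_filter.mp hi).2
        have hjT : j ∈ T := Finset.mem_filter.mpr ⟨Finset.mem_univ j, hj'⟩
        exact Finset.one_lt_card.mpr ⟨j, hjT, i, hi, hj⟩
      -- pointwise in b
      have hb : ∀ b : ℤ, (∑ a ∈ range p, ∏ i, f i (b + R * a)) / p ≤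
          Real.sqrt p ^ T.card / p * ∏ i, f' i b := by
        intro b
        rw [div_mul_eq_mul_div]
        apply div_le_div_of_nonneg_right _ hp0.le
        have h1 : ∀ a : ℕ, ∏ i, f i (b + R * a) =
            (∏ i ∈ T, f i (b + R * a)) * ∏ i ∈ Tᶜ, f i b := by
          intro a
          rw [← Finset.prod_mul_prod_compl T]
          congr 1
          refine Finset.prod_congr rfl fun i hi => ?_
          apply hfc
          intro h
          rw [Finset.mem_compl] at hi
          exact hi (Finset.mem_filter.mpr ⟨Finset.mem_univ i, h⟩)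
        rw [Finset.sum_congr rfl fun a _ => h1 a, ← Finset.sum_mul]
        have h2 := cs_many T hT2 p (fun i a => f i (b + R * a)) (fun i a => h0 i _)
        have h3 : ∏ i ∈ T, Real.sqrt (∑ a ∈ range p, f i (b + R * a) ^ 2) =
            Real.sqrt p ^ T.card * ∏ i ∈ T, f' i b := by
          rw [← Finset.prod_const, ← Finset.prod_mul_distrib]
          refine Finset.prod_congr rfl fun i hi => ?_
          simp only [f', if_pos (Finset.mem_filter.mp hi).2, g]
          rw [← Real.sqrt_mul hp0.le]
          congr 1
          field_simp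
        have h4 : ∏ i, f' i b = (∏ i ∈ T, f' i b) * ∏ i ∈ Tᶜ, f i b := by
          rw [← Finset.prod_mul_prod_compl T]
          congr 1
          refine Finset.prod_congr rfl fun i hi => ?_
          rw [Finset.mem_compl] at hi
          simp only [f']
          rw [if_neg]
          intro h
          exact hi (Finset.mem_filter.mpr ⟨Finset.mem_univ i, h⟩)
        rw [h4, ← mul_assoc, ← h3]
        exact mul_le_mul_of_nonneg_right h2 (Finset.prod_nonneg fun i _ => h0 i b)
      have h5 : mean (p * R) (fun u => ∏ i, f i u) ≤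
          Real.sqrt p ^ T.card / p * mean R (fun u => ∏ i, f' i u) := by
        rw [mean_split, ← mean_const_mul]
        exact mean_mono fun b _ => hb b
      have h6 : ∏ i, Real.sqrt (q i * M i) =
          Real.sqrt p ^ T.card * ∏ i, Real.sqrt (q' i * M i) := by
        rw [← Finset.prod_mul_prod_compl T, ← Finset.prod_mul_prod_compl T (fun i =>
          Real.sqrt (q' i * M i)), ← mul_assoc, ← Finset.prod_const, ← Finset.prod_mul_distrib]
        congr 1
        · refine Finset.prod_congr rfl fun i hi => ?_
          have h7 := (Finset.mem_filter.mp hi).2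
          simp only [q', if_pos h7]
          rw [← Real.sqrt_mul hp0.le, Nat.cast_div h7 hp0.ne']
          congr 1
          field_simp
        · refine Finset.prod_congr rfl fun i hi => ?_
          rw [Finset.mem_compl] at hi
          simp only [q']
          rw [if_neg]
          intro h
          exact hi (Finset.mem_filter.mpr ⟨Finset.mem_univ i, h⟩)
      have h8 : (univ.lcm q : ℕ) ≤ p * (univ.lcm q' : ℕ) := by
        apply Nat.le_of_dvd (Nat.mul_pos hpp.pos hlq'0)
        apply Finset.lcm_dvd
        intro i _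
        have h9 : q' i ∣ univ.lcm q' := Finset.dvd_lcm (Finset.mem_univ i)
        by_cases h : p ∣ q i
        · simp only [q', if_pos h] at h9
          have h10 := Nat.mul_dvd_mul_left p h9
          rwa [Nat.mul_div_cancel' h] at h10
        · have h10 : q' i = q i := by simp only [q', if_neg h]
          rw [h10] at h9
          exact h9.mul_left _
      refine h5.trans ((mul_le_mul_of_nonneg_left IH (by positivity)).trans ?_)
      rw [h6]
      have hA : 0 ≤ Real.sqrt p ^ T.card * ∏ i, Real.sqrt (q' i * M i) := by positivity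
      have e3 : Real.sqrt p ^ T.card / p * ((∏ i, Real.sqrt (q' i * M i)) /
          ((univ.lcm q' : ℕ) : ℝ)) = (Real.sqrt p ^ T.card * ∏ i, Real.sqrt (q' i * M i)) /
          ((p : ℝ) * ((univ.lcm q' : ℕ) : ℝ)) := by
        field_simp
      rw [e3]
      apply div_le_div_of_nonneg_left hA (by exact_mod_cast hlq0)
      exact_mod_cast h8

end Pool.Agent.P8H52.RP
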