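import Pool.Agent.P8H52.RP.Van

/-!
# Project RP: the mean square of the sums of Ramanujan's sums over a progression
-/

set_option autoImplicit false

namespace Pool.Agent.P8H52.RP

open Finset Pool.Agent.P8H73.RP

lemma squarefree_prod {P : Finset ℕ} (hP : ∀ p ∈ P, p.Prime) : Squarefree (∏ p ∈ P, p) := by
  classical
  induction P using Finset.induction_on with
  | empty => simp
  | insert p P hp ih =>
    have hpp := hP p (Finset.mem_insert_self p P)
    have hP' : ∀ q ∈ P, q.Prime := fun q hq => hP q (Finset.mem_insert_of_mem hq)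
    rw [Finset.prod_insert hp, Nat.squarefree_mul (coprime_prod hP' hpp hp)]
    exact ⟨hpp.prime.squarefree, ih hP'⟩

lemma primeFactors_sub {P : Finset ℕ} (hP : ∀ p ∈ P, p.Prime) {q : ℕ} (hq : q ∣ ∏ p ∈ P, p) :
    q.primeFactors ⊆ P := by
  intro x hx
  have hxp := Nat.prime_of_mem_primeFactors hx
  have h1 := (Nat.dvd_of_mem_primeFactors hx).trans hq
  obtain ⟨y, hy, hxy⟩ := (Prime.dvd_finsetProd_iff hxp.prime _).mp h1
  rw [Nat.prime_dvd_prime_iff_eq hxp (hP y hy)] at hxy
  rwa [hxy]

lemma FF_abs {p : ℕ} (hp : 0 < p) : mean p (fun u => |FF p u|) ≤ 2 := by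
  unfold mean
  have hp0 : (0 : ℝ) < p := by exact_mod_cast hp
  have hp1 : (1 : ℝ) ≤ p := by exact_mod_cast hp
  rw [div_le_iff₀ hp0]
  have h1 : ∀ a ∈ range p, |FF p (a : ℤ)| ≤ FF p a + 2 := by
    intro a _
    unfold FF
    rw [abs_le]
    split_ifs
    · constructor <;> linarith
    · constructor <;> linarith
  refine (Finset.sum_le_sum h1).trans ?_
  rw [Finset.sum_add_distrib, FF_sum hp, Finset.sum_const, Finset.card_range, nsmul_eq_mul]
  linarith

lemma FF_corr {p : ℕ} (hp : 0 < p) (a b : ℤ) :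
    mean p (fun u => FF p (u + a) * FF p (u + b)) = FF p (a - b) := by
  have hp0 : (0 : ℝ) < p := by exact_mod_cast hp
  have hper : Per p (fun v => FF p (v + (a - b)) * FF p v) := by
    intro v
    simp only
    rw [FF_per p v, show v + (p : ℤ) + (a - b) = (v + (a - b)) + p by ring, FF_per p]
  have h1 := sum_affine hp hper b 1 (by simp)
  have hper2 : Per p (FF p) := FF_per p
  have h2 := sum_affine hp hper2 (a - b) 1 (by simp)
  have h3 : ∑ u ∈ range p, FF p (u + a) * FF p (u + b) = p * FF p (a - b) := by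
    have e1 : ∑ u ∈ range p, FF p ((u : ℤ) + a) * FF p ((u : ℤ) + b) =
        ∑ u ∈ range p, FF p (b + 1 * (u : ℤ) + (a - b)) * FF p (b + 1 * (u : ℤ)) := by
      refine Finset.sum_congr rfl fun u _ => ?_
      congr 2 <;> ring
    rw [e1, h1]
    have e2 : ∀ v : ℕ, FF p ((v : ℤ) + (a - b)) * FF p v =
        FF p ((v : ℤ) + (a - b)) * (if (p : ℤ) ∣ v then (p : ℝ) else 0) -
          FF p ((a - b) + 1 * (v : ℤ)) := by
      intro v
      rw [show (a - b) + 1 * (v : ℤ) = (v : ℤ) + (a - b) by ring]
      conv_lhs => rw [show FF p (v : ℤ) = (if (p : ℤ) ∣ v then (p : ℝ) else 0) - 1 from rfl]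
      ring
    rw [Finset.sum_congr rfl fun v _ => e2 v, Finset.sum_sub_distrib, h2, FF_sum hp, sub_zero,
      Finset.sum_eq_single 0]
    · simp
      ring
    · intro v hv hv0
      rw [if_neg, mul_zero]
      intro h
      rw [Int.natCast_dvd_natCast] at h
      exact absurd (Nat.le_of_dvd (Nat.pos_of_ne_zero hv0) h) (not_le.mpr (Finset.mem_range.mp hv))
    · intro h
      exact absurd (Finset.mem_range.mpr hp) h
  unfold mean
  rw [h3]
  field_simp

lemma rs_corr {P : Finset ℕ} (hP : ∀ p ∈ P, p.Prime) {q : ℕ} (hq : q ∣ ∏ p ∈ P, p) (a b : ℤ) :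
    mean (∏ p ∈ P, p) (fun u => rs q (u + a) * rs q (u + b)) = rs q (a - b) := by
  classical
  have hsub := primeFactors_sub hP hq
  have h1 := mean_prod P hP (fun p u => if p ∈ q.primeFactors then FF p (u + a) * FF p (u + b)
    else 1) (by
      intro p _ u
      simp only
      split_ifs
      · rw [show u + (p : ℤ) + a = (u + a) + p by ring,
          show u + (p : ℤ) + b = (u + b) + p by ring, FF_per p, FF_per p]
      · rfl)
  have h2 : ∀ F : ℕ → ℝ, ∏ p ∈ P, (if p ∈ q.primeFactors then F p else 1) =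
      ∏ p ∈ q.primeFactors, F p := by
    intro F
    rw [Finset.prod_ite_mem, Finset.inter_eq_right.mpr hsub]
  have h3 : (fun u => rs q (u + a) * rs q (u + b)) = fun u =>
      ∏ p ∈ P, (if p ∈ q.primeFactors then FF p (u + a) * FF p (u + b) else 1) := by
    funext u
    rw [h2 (fun p => FF p (u + a) * FF p (u + b)), rs_eq, rs_eq, ← Finset.prod_mul_distrib]
  rw [h3, h1, rs_eq, ← h2]
  refine Finset.prod_congr rfl fun p hp => ?_
  by_cases h : p ∈ q.primeFactors
  · simp only [if_pos h]
    exact FF_corr (hP p hp).pos a b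
  · simp only [if_neg h]
    unfold mean
    have : (p : ℝ) ≠ 0 := by exact_mod_cast (hP p hp).ne_zero
    simp [this]

lemma per_sum_abs {q : ℕ} (hq : 0 < q) {f : ℤ → ℝ} (hper : Per q f)
    (h0 : ∑ x ∈ range q, f x = 0) (H : ℕ) :
    ∑ x ∈ range H, f x ≤ ∑ x ∈ range q, |f x| := by
  induction H using Nat.strong_induction_on with
  | _ H ih =>
    by_cases h : H < q
    · calc ∑ x ∈ range H, f x ≤ ∑ x ∈ range H, |f x| := Finset.sum_le_sum fun x _ => le_abs_self _
        _ ≤ ∑ x ∈ range q, |f x| :=
          Finset.sum_le_sum_of_subset_of_nonneg (Finset.range_subset_range.mpr h.le)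
            fun x _ _ => abs_nonneg _
    · push Not at h
      obtain ⟨c, rfl⟩ : ∃ c, H = q + c := ⟨H - q, by omega⟩
      rw [Finset.sum_range_add, h0, zero_add]
      have h1 : ∀ x : ℕ, f ((q + x : ℕ) : ℤ) = f x := by
        intro x
        rw [← hper (x : ℤ)]
        congr 1
        push_cast
        ring
      rw [Finset.sum_congr rfl fun x _ => h1 x]
      exact ih c (by omega)

lemma rs_full {q : ℕ} (hq : 1 < q) (hsq : Squarefree q) : ∑ x ∈ range q, rs q x = 0 := by
  have hprod := Nat.prod_primeFactors_of_squarefree hsq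
  have h1 := mean_prod q.primeFactors (fun p hp => Nat.prime_of_mem_primeFactors hp) FF
    fun p _ => FF_per p
  rw [hprod] at h1
  have h2 : ∏ p ∈ q.primeFactors, mean p (FF p) = 0 := by
    obtain ⟨p, hp⟩ := Nat.nonempty_primeFactors.mpr hq
    apply Finset.prod_eq_zero hp
    unfold mean
    rw [FF_sum (Nat.prime_of_mem_primeFactors hp).pos, zero_div]
  rw [h2] at h1
  have h3 : mean q (rs q) = 0 := h1
  unfold mean at h3
  have : (q : ℝ) ≠ 0 := by exact_mod_cast (by omega : q ≠ 0)
  rwa [div_eq_zero_iff, or_iff_left this] at h3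

lemma rs_abs {q : ℕ} (hq : 1 < q) (hsq : Squarefree q) :
    ∑ x ∈ range q, |rs q x| ≤ q * (q.divisors.card : ℝ) := by
  have hprod := Nat.prod_primeFactors_of_squarefree hsq
  have hq0 : (0 : ℝ) < q := by exact_mod_cast (by omega : 0 < q)
  have h1 := mean_prod q.primeFactors (fun p hp => Nat.prime_of_mem_primeFactors hp)
    (fun p u => |FF p u|) fun p _ u => by simp only [FF_per p u]
  rw [hprod] at h1
  have h2 : mean q (fun u => |rs q u|) ≤ (q.divisors.card : ℝ) := by
    have h3 : (fun u => |rs q u|) = fun u => ∏ p ∈ q.primeFactors, |FF p u| := by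
      funext u
      rw [rs_eq, Finset.abs_prod]
    rw [h3, h1, Nat.card_divisors (by omega)]
    push_cast
    apply Finset.prod_le_prod
    · intro p _
      exact mean_nonneg fun u => abs_nonneg _
    · intro p hp
      have hpp := Nat.prime_of_mem_primeFactors hp
      refine (FF_abs hpp.pos).trans ?_
      have h4 : 1 ≤ q.factorization p :=
        (hpp.factorization_pos_of_dvd (by omega) (Nat.dvd_of_mem_primeFactors hp))
      have h5 : (1 : ℝ) ≤ q.factorization p := by exact_mod_cast h4
      linarith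
  unfold mean at h2
  rw [div_le_iff₀ hq0] at h2
  linarith

theorem l2 : S_L2 := by
  intro P k H hP q hq hq1
  have hP' : ∀ p ∈ P, p.Prime := fun p hp => (hP p hp).1
  have hsq : Squarefree q := (squarefree_prod hP').squarefree_of_dvd hq
  have hsub := primeFactors_sub hP' hq
  have h1 : mean (∏ p ∈ P, p) (fun u => rsum q k H u ^ 2) =
      ∑ i ∈ range H, ∑ j ∈ range H, rs q ((i : ℤ) - j) := by
    have h2 : (fun u => rsum q k H u ^ 2) = fun u => ∑ i ∈ range H, ∑ j ∈ range H,
        rs q (u + k * i) * rs q (u + k * j) := by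
      funext u
      unfold rsum
      rw [pow_two, Finset.sum_mul_sum]
    rw [h2, mean_sum]
    refine Finset.sum_congr rfl fun i _ => ?_
    rw [mean_sum]
    refine Finset.sum_congr rfl fun j _ => ?_
    rw [rs_corr hP' hq, rs_eq, rs_eq]
    refine Finset.prod_congr rfl fun p hp => ?_
    unfold FF
    have hpp := Nat.prime_of_mem_primeFactors hp
    have hpk := (hP p (hsub hp)).2
    have h3 : (p : ℤ) ∣ (k : ℤ) * i - k * j ↔ (p : ℤ) ∣ (i : ℤ) - j := by
      rw [← mul_sub]
      constructor
      · intro h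
        rcases (Nat.prime_iff_prime_int.mp hpp).dvd_mul.mp h with h | h
        · exact absurd (Int.natCast_dvd_natCast.mp h) hpk
        · exact h
      · exact fun h => h.mul_left _
    simp only [h3]
  rw [h1]
  have h4 : ∀ i : ℕ, ∑ j ∈ range H, rs q ((i : ℤ) - j) ≤ q * (q.divisors.card : ℝ) := by
    intro i
    have hper : Per q (fun x => rs q ((i : ℤ) - x)) := by
      intro x
      simp only
      rw [← rs_per q ((i : ℤ) - (x + q))]
      congr 1
      ring
    have hu : IsUnit (((-1 : ℤ)) : ZMod q) := by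
      rw [Int.cast_neg, Int.cast_one]
      exact isUnit_one.neg
    have e1 : ∀ F : ℤ → ℝ, Per q F → ∑ x ∈ range q, F ((i : ℤ) - x) = ∑ x ∈ range q, F x := by
      intro F hF
      have := sum_affine (by omega) hF (i : ℤ) (-1) hu
      rw [← this]
      refine Finset.sum_congr rfl fun x _ => ?_
      congr 1
      ring
    have h5 := per_sum_abs (by omega) hper (by rw [e1 _ (rs_per q), rs_full hq1 hsq]) H
    refine h5.trans ?_
    have h6 := e1 (fun x => |rs q x|) (fun u => by simp only [rs_per q u])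
    rw [h6]
    exact rs_abs hq1 hsq
  refine (Finset.sum_le_sum fun i _ => h4 i).trans (le_of_eq ?_)
  rw [Finset.sum_const, Finset.card_range, nsmul_eq_mul]
  ring

end Pool.Agent.P8H52.RP
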