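import Pool.Agent.P8H73.RP.Stm
import Pool.Agent.Helper924.MW.Lower

/-!
# Project RP: the sum of the reciprocals of the least common multiples
-/

set_option autoImplicit false

namespace Pool.Agent.P8H52.RP

open Finset Pool.Agent.P8H73.RP

lemma div_bound {ε : ℝ} (hε : 0 < ε) : ∃ C : ℝ, 1 ≤ C ∧ ∀ n : ℕ, 1 ≤ n →
    (n.divisors.card : ℝ) ≤ C * (n : ℝ) ^ ε := by
  obtain ⟨K, hK⟩ := exists_nat_gt (1 / ε)
  have hK0 : 0 < (K : ℝ) := lt_trans (by positivity) hK
  have hK0' : 0 < K := by exact_mod_cast hK0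
  obtain ⟨C, hC1, hC⟩ := Pool.Agent.Helper924.MW.Lower.exists_divisor_bound K hK0'
  refine ⟨C, by exact_mod_cast hC1, fun n hn => ?_⟩
  have h1 : ((n.divisors.card : ℝ)) ^ K ≤ C * n := by exact_mod_cast hC n (by omega)
  have hn1 : (1 : ℝ) ≤ n := by exact_mod_cast hn
  have hC1' : (1 : ℝ) ≤ C := by exact_mod_cast hC1
  have h2 : (C : ℝ) * n ≤ (C * (n : ℝ) ^ ε) ^ K := by
    rw [mul_pow]
    have h3 : (C : ℝ) ≤ (C : ℝ) ^ K := le_self_pow₀ hC1' (by omega)
    have h4 : (n : ℝ) ≤ ((n : ℝ) ^ ε) ^ K := by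
      rw [← Real.rpow_natCast, ← Real.rpow_mul (by positivity)]
      calc (n : ℝ) = (n : ℝ) ^ (1 : ℝ) := (Real.rpow_one _).symm
        _ ≤ (n : ℝ) ^ (ε * K) := by
          apply Real.rpow_le_rpow_of_exponent_le hn1
          rw [div_lt_iff₀ hε] at hK
          linarith
    gcongr
  exact le_of_pow_le_pow_left₀ (by omega) (by positivity) (h1.trans h2)

/-- `1 + log N` is smaller than every power -/
lemma one_log_le {η : ℝ} (hη : 0 < η) {x : ℝ} (hx : 1 ≤ x) :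
    1 + Real.log x ≤ (1 + 1 / η) * x ^ η := by
  have h1 := Real.log_le_rpow_div (by linarith : 0 ≤ x) hη
  have h2 : 1 ≤ x ^ η := Real.one_le_rpow hx hη.le
  have h3 : (1 + 1 / η) * x ^ η = x ^ η + x ^ η / η := by ring
  linarith

lemma harm_le (N : ℕ) : ∑ L ∈ Icc 1 N, 1 / (L : ℝ) ≤ 1 + Real.log N := by
  have h := harmonic_le_one_add_log N
  have h2 : ((harmonic N : ℚ) : ℝ) = ∑ L ∈ Icc 1 N, 1 / (L : ℝ) := by
    rw [harmonic_eq_sum_Icc]
    push_cast
    simp [one_div]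
  rwa [h2] at h

lemma lcm_pos {t : ℕ} {x : Fin t → ℕ} (h : ∀ i, 1 ≤ x i) : 1 ≤ (univ.lcm x : ℕ) := by
  rw [Nat.one_le_iff_ne_zero, Ne, Finset.lcm_eq_zero_iff]
  rintro ⟨i, -, hi⟩
  have := h i
  omega

lemma lcm_le {t D : ℕ} {x : Fin t → ℕ} (h : ∀ i, 1 ≤ x i ∧ x i ≤ D) :
    (univ.lcm x : ℕ) ≤ D ^ t := by
  have h1 : (univ.lcm x : ℕ) ∣ ∏ i, x i :=
    Finset.lcm_dvd fun i _ => Finset.dvd_prod_of_mem x (Finset.mem_univ i)
  have h2 : 0 < ∏ i, x i := Finset.prod_pos fun i _ => (h i).1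
  refine (Nat.le_of_dvd h2 h1).trans ?_
  calc ∏ i, x i ≤ ∏ _i : Fin t, D := Finset.prod_le_prod' fun i _ => (h i).2
    _ = D ^ t := by simp

theorem sum : S_SUM := by
  classical
  intro t ε hε
  set η : ℝ := ε / ((t : ℝ) ^ 2 + t + 1) with hη
  have hden : (0 : ℝ) < (t : ℝ) ^ 2 + t + 1 := by positivity
  have hη0 : 0 < η := div_pos hε hden
  obtain ⟨C, hC1, hC⟩ := div_bound hη0
  refine ⟨C ^ t * (1 + 1 / η), by positivity, ?_⟩
  intro D hD
  have hD1 : (1 : ℝ) ≤ D := by exact_mod_cast hD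
  have hmaps : ∀ x ∈ Fintype.piFinset (fun _ : Fin t => Icc 1 D),
      (univ.lcm x : ℕ) ∈ Icc 1 (D ^ t) := by
    intro x hx
    rw [Fintype.mem_piFinset] at hx
    have hx' : ∀ i, 1 ≤ x i ∧ x i ≤ D := fun i => Finset.mem_Icc.mp (hx i)
    rw [Finset.mem_Icc]
    exact ⟨lcm_pos fun i => (hx' i).1, lcm_le hx'⟩
  rw [← Finset.sum_fiberwise_of_maps_to hmaps]
  have h1 : ∀ L ∈ Icc 1 (D ^ t), ∑ x ∈ (Fintype.piFinset (fun _ : Fin t => Icc 1 D)).filter
      (fun x => (univ.lcm x : ℕ) = L), 1 / ((univ.lcm x : ℕ) : ℝ) ≤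
      (C ^ t * (D : ℝ) ^ (η * t * t)) * (1 / (L : ℝ)) := by
    intro L hL
    rw [Finset.mem_Icc] at hL
    have hL0 : (0 : ℝ) < L := by exact_mod_cast hL.1
    rw [Finset.sum_congr rfl (g := fun _ => 1 / (L : ℝ)) fun x hx => by
      rw [(Finset.mem_filter.mp hx).2], Finset.sum_const, nsmul_eq_mul]
    apply mul_le_mul_of_nonneg_right _ (by positivity)
    have h2 : ((Fintype.piFinset (fun _ : Fin t => Icc 1 D)).filter
        (fun x => (univ.lcm x : ℕ) = L)).card ≤ L.divisors.card ^ t := by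
      have h3 : (Fintype.piFinset (fun _ : Fin t => Icc 1 D)).filter
          (fun x => (univ.lcm x : ℕ) = L) ⊆ Fintype.piFinset (fun _ : Fin t => L.divisors) := by
        intro x hx
        rw [Fintype.mem_piFinset]
        intro i
        rw [Nat.mem_divisors]
        refine ⟨?_, by omega⟩
        rw [← (Finset.mem_filter.mp hx).2]
        exact Finset.dvd_lcm (Finset.mem_univ i)
      refine (Finset.card_le_card h3).trans (le_of_eq ?_)
      rw [Fintype.card_piFinset]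
      simp
    have h4 : (L : ℝ) ≤ (D : ℝ) ^ t := by exact_mod_cast hL.2
    calc (((Fintype.piFinset (fun _ : Fin t => Icc 1 D)).filter
        (fun x => (univ.lcm x : ℕ) = L)).card : ℝ) ≤ (L.divisors.card : ℝ) ^ t := by
          exact_mod_cast h2
      _ ≤ (C * (L : ℝ) ^ η) ^ t := pow_le_pow_left₀ (Nat.cast_nonneg _) (hC L hL.1) t
      _ ≤ (C * ((D : ℝ) ^ t) ^ η) ^ t := by
          gcongr
      _ = C ^ t * (D : ℝ) ^ (η * t * t) := by
          rw [mul_pow]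
          congr 1
          have e1 : (D : ℝ) ^ t = (D : ℝ) ^ (t : ℝ) := (Real.rpow_natCast _ _).symm
          have e2 : ∀ z : ℝ, z ^ t = z ^ (t : ℝ) := fun z => (Real.rpow_natCast _ _).symm
          rw [e2 (((D : ℝ) ^ t) ^ η), e1, ← Real.rpow_mul (by linarith),
            ← Real.rpow_mul (by linarith)]
          congr 1
          ring
  refine (Finset.sum_le_sum h1).trans ?_
  rw [← Finset.mul_sum]
  have h5 := harm_le (D ^ t)
  have hDt : (1 : ℝ) ≤ ((D ^ t : ℕ) : ℝ) := by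
    push_cast
    exact one_le_pow₀ hD1
  have h6 := one_log_le hη0 hDt
  have h7 : (((D ^ t : ℕ) : ℝ)) ^ η = (D : ℝ) ^ (η * t) := by
    push_cast
    rw [← Real.rpow_natCast, ← Real.rpow_mul (by linarith)]
    congr 1
    ring
  rw [h7] at h6
  calc C ^ t * (D : ℝ) ^ (η * t * t) * ∑ L ∈ Icc 1 (D ^ t), 1 / (L : ℝ)
      ≤ C ^ t * (D : ℝ) ^ (η * t * t) * ((1 + 1 / η) * (D : ℝ) ^ (η * t)) := by
        apply mul_le_mul_of_nonneg_left (h5.trans h6) (by positivity)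
    _ = C ^ t * (1 + 1 / η) * (D : ℝ) ^ (η * t * t + η * t) := by
        rw [Real.rpow_add (by linarith)]
        ring
    _ ≤ C ^ t * (1 + 1 / η) * (D : ℝ) ^ ε := by
        apply mul_le_mul_of_nonneg_left _ (by positivity)
        apply Real.rpow_le_rpow_of_exponent_le hD1
        have : η * ((t : ℝ) ^ 2 + t + 1) = ε := by
          rw [hη]
          field_simp
        nlinarith

end Pool.Agent.P8H52.RP
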