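import Pool.Agent.P8H52.RP.Hol
import Pool.Agent.P8H52.RP.L2
import Pool.Agent.P8H52.RP.Sum

/-!
# Project RP: the moments over a full period
-/

set_option autoImplicit false

namespace Pool.Agent.P8H52.RP

open Finset Pool.Agent.P8H73.RP

lemma sum_rs {d : ℕ} (hd : Squarefree d) (u : ℤ) :
    ∑ q ∈ d.divisors, rs q u = if (d : ℤ) ∣ u then (d : ℝ) else 0 := by
  have hd0 : d ≠ 0 := hd.ne_zero
  have hprod := Nat.prod_primeFactors_of_squarefree hd
  have h1 : ∑ q ∈ d.divisors, rs q u = ∑ S ∈ d.primeFactors.powerset, ∏ p ∈ S, FF p u := by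
    symm
    refine Finset.sum_nbij' (fun S => ∏ p ∈ S, p) (fun q => q.primeFactors) ?_ ?_ ?_ ?_ ?_
    · intro S hS
      rw [Finset.mem_powerset] at hS
      rw [Nat.mem_divisors]
      refine ⟨?_, hd0⟩
      have := Finset.prod_dvd_prod_of_subset S d.primeFactors (fun p => p) hS
      rwa [hprod] at this
    · intro q hq
      rw [Finset.mem_powerset]
      exact Nat.primeFactors_mono (Nat.dvd_of_mem_divisors hq) hd0
    · intro S hS
      rw [Finset.mem_powerset] at hS
      exact Nat.primeFactors_prod fun p hp => Nat.prime_of_mem_primeFactors (hS hp)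
    · intro q hq
      exact Nat.prod_primeFactors_of_squarefree
        (hd.squarefree_of_dvd (Nat.dvd_of_mem_divisors hq))
    · intro S hS
      rw [Finset.mem_powerset] at hS
      rw [rs_eq, Nat.primeFactors_prod fun p hp => Nat.prime_of_mem_primeFactors (hS hp)]
  have h2 : ∏ p ∈ d.primeFactors, (FF p u + 1) = if (d : ℤ) ∣ u then (d : ℝ) else 0 := by
    have h3 : ∀ p : ℕ, FF p u + 1 = if (p : ℤ) ∣ u then (p : ℝ) else 0 := by
      intro p
      unfold FF
      ring
    simp only [h3]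
    split_ifs with h
    · rw [Finset.prod_congr rfl (g := fun p : ℕ => (p : ℝ))]
      · rw [← Nat.cast_prod, hprod]
      · intro p hp
        rw [if_pos]
        exact (Int.natCast_dvd_natCast.mpr (Nat.dvd_of_mem_primeFactors hp)).trans h
    · by_contra hne
      apply h
      have h4 : ∀ p ∈ d.primeFactors, (p : ℤ) ∣ u := by
        intro p hp
        by_contra h5
        apply hne
        exact Finset.prod_eq_zero hp (if_neg h5)
      rw [Int.natCast_dvd]
      have h6 : ∏ p ∈ d.primeFactors, p ∣ u.natAbs :=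
        Finset.prod_primes_dvd _ (fun p hp => (Nat.prime_of_mem_primeFactors hp).prime)
          fun p hp => Int.natCast_dvd.mp (h4 p hp)
      rwa [hprod] at h6
  rw [h1, ← h2, Finset.prod_add_one]

/-- the coefficients -/
noncomputable def ww (lam : ℕ → ℝ) (D q : ℕ) : ℝ :=
  ∑ d ∈ (Icc 1 D).filter (fun d => q ∣ d), lam d / d

/-- the index set -/
def AA (R D : ℕ) : Finset ℕ := (Icc 2 D).filter (fun q => q ∣ R)

lemma cen_eq {P : Finset ℕ} (hP : ∀ p ∈ P, p.Prime) {lam : ℕ → ℝ}
    (hl : ∀ d, lam d ≠ 0 → d ∣ ∏ p ∈ P, p) (D k H : ℕ) (u : ℤ) :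
    cen lam D k H u = ∑ q ∈ AA (∏ p ∈ P, p) D, ww lam D q * rsum q k H u := by
  set R := ∏ p ∈ P, p with hR
  have hRsq : Squarefree R := squarefree_prod hP
  have h1 : ∀ d ∈ Icc 1 D, ∀ v : ℤ, lam d * ((if (d : ℤ) ∣ v then (1 : ℝ) else 0) - 1 / d) =
      ∑ q ∈ (AA R D).filter (fun q => q ∣ d), lam d / d * rs q v := by
    intro d hd v
    rw [Finset.mem_Icc] at hd
    have hd0 : (d : ℝ) ≠ 0 := by exact_mod_cast (by omega : d ≠ 0)
    by_cases hld : lam d = 0
    · simp [hld]
    · have hdR := hl d hld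
      have hsq := hRsq.squarefree_of_dvd hdR
      have h2 := sum_rs hsq v
      have h3 : d.divisors = insert 1 ((AA R D).filter (fun q => q ∣ d)) := by
        ext q
        rw [Nat.mem_divisors, Finset.mem_insert, Finset.mem_filter, AA, Finset.mem_filter,
          Finset.mem_Icc]
        constructor
        · rintro ⟨h4, h5⟩
          by_cases hq1 : q = 1
          · exact Or.inl hq1
          · right
            have h6 : 0 < q := Nat.pos_of_dvd_of_pos h4 (by omega)
            have h7 := Nat.le_of_dvd (by omega) h4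
            exact ⟨⟨⟨by omega, by omega⟩, h4.trans hdR⟩, h4⟩
        · rintro (rfl | h4)
          · exact ⟨one_dvd _, by omega⟩
          · exact ⟨h4.2, by omega⟩
      rw [h3, Finset.sum_insert (by
        rw [Finset.mem_filter, AA, Finset.mem_filter, Finset.mem_Icc]
        omega)] at h2
      have h4 : rs 1 v = 1 := by simp [rs]
      rw [h4] at h2
      rw [← Finset.mul_sum]
      have h5 : ∑ q ∈ (AA R D).filter (fun q => q ∣ d), rs q v =
          (if (d : ℤ) ∣ v then (d : ℝ) else 0) - 1 := by linarith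
      rw [h5]
      split_ifs
      · field_simp
      · field_simp
        ring
  unfold cen
  have h2 : ∀ j ∈ range H, ∑ d ∈ Icc 1 D, lam d * ((if (d : ℤ) ∣ u + k * j then (1 : ℝ) else 0) -
      1 / d) = ∑ q ∈ AA R D, ww lam D q * rs q (u + k * j) := by
    intro j _
    rw [Finset.sum_congr rfl fun d hd => h1 d hd _]
    simp only [Finset.sum_filter]
    rw [Finset.sum_comm]
    refine Finset.sum_congr rfl fun q _ => ?_
    unfold ww
    rw [Finset.sum_filter, Finset.sum_mul]
    refine Finset.sum_congr rfl fun d _ => ?_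
    split_ifs
    · rfl
    · rw [zero_mul]
  rw [Finset.sum_congr rfl h2, Finset.sum_comm]
  refine Finset.sum_congr rfl fun q _ => ?_
  unfold rsum
  rw [Finset.mul_sum]

lemma ww_le {lam : ℕ → ℝ} {Λ : ℝ} (hΛ : 0 ≤ Λ) (hl : ∀ d, |lam d| ≤ Λ) {D q : ℕ} (hq : 1 ≤ q) :
    |ww lam D q| ≤ Λ * (1 + Real.log D) / q := by
  have hq0 : (0 : ℝ) < q := by exact_mod_cast hq
  unfold ww
  have h1 : |∑ d ∈ (Icc 1 D).filter (fun d => q ∣ d), lam d / d| ≤
      ∑ d ∈ (Icc 1 D).filter (fun d => q ∣ d), Λ * (1 / (d : ℝ)) := by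
    refine (Finset.abs_sum_le_sum_abs _ _).trans (Finset.sum_le_sum fun d _ => ?_)
    rw [abs_div, Nat.abs_cast, div_eq_mul_one_div]
    exact mul_le_mul_of_nonneg_right (hl d) (by positivity)
  refine h1.trans ?_
  rw [← Finset.mul_sum, mul_div_assoc]
  apply mul_le_mul_of_nonneg_left _ hΛ
  have h2 : ∑ d ∈ (Icc 1 D).filter (fun d => q ∣ d), 1 / (d : ℝ) ≤
      ∑ e ∈ Icc 1 D, 1 / (((q * e : ℕ) : ℝ)) := by
    have h3 : (Icc 1 D).filter (fun d => q ∣ d) ⊆ (Icc 1 D).image (fun e => q * e) := by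
      intro d hd
      rw [Finset.mem_filter, Finset.mem_Icc] at hd
      obtain ⟨⟨h4, h5⟩, e, rfl⟩ := hd
      rw [Finset.mem_image]
      refine ⟨e, Finset.mem_Icc.mpr ⟨?_, ?_⟩, rfl⟩
      · exact Nat.pos_of_ne_zero fun h => by rw [h] at h4; simp at h4
      · exact (Nat.le_mul_of_pos_left e hq).trans h5
    refine (Finset.sum_le_sum_of_subset_of_nonneg h3 fun _ _ _ => by positivity).trans ?_
    rw [Finset.sum_image]
    intro a _ b _ hab
    exact Nat.eq_of_mul_eq_mul_left hq hab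
  refine h2.trans ?_
  rw [le_div_iff₀ hq0]
  refine le_trans (le_of_eq ?_) (harm_le D)
  rw [Finset.sum_mul]
  refine Finset.sum_congr rfl fun e _ => ?_
  push_cast
  by_cases he : (e : ℝ) = 0
  · simp [he]
  · field_simp

lemma mean_abs {R : ℕ} (F : ℤ → ℝ) : |mean R F| ≤ mean R (fun u => |F u|) := by
  unfold mean
  rw [abs_div, Nat.abs_cast]
  apply div_le_div_of_nonneg_right _ (Nat.cast_nonneg R)
  exact Finset.abs_sum_le_sum_abs _ _

lemma tuple_le {P : Finset ℕ} {k : ℕ} (hP : ∀ p ∈ P, p.Prime ∧ ¬ p ∣ k) (H t : ℕ)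
    (x : Fin t → ℕ) (hx : ∀ i, 1 < x i ∧ x i ∣ ∏ p ∈ P, p) :
    |mean (∏ p ∈ P, p) (fun u => ∏ i, rsum (x i) k H u)| ≤
      (∏ i, ((x i : ℝ) * (Real.sqrt H * Real.sqrt ((x i).divisors.card)))) /
        ((univ.lcm x : ℕ) : ℝ) := by
  have hP' : ∀ p ∈ P, p.Prime := fun p hp => (hP p hp).1
  by_cases h : ∃ p ∈ P, ∃ i, p ∣ x i ∧ ∀ j, j ≠ i → ¬ p ∣ x j
  · obtain ⟨p, hp, i, hi, hj⟩ := h
    rw [van P k H hP' t x (fun i => (hx i).2) p hp i hi hj, abs_zero]
    positivity
  · push Not at h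
    refine (mean_abs _).trans ?_
    have h1 : (fun u => |∏ i, rsum (x i) k H u|) = fun u => ∏ i, |rsum (x i) k H u| := by
      funext u
      rw [Finset.abs_prod]
    rw [h1]
    refine (hol P hP' t x (fun i u => |rsum (x i) k H u|) (fun i => (hx i).2)
      (fun i u => by simp only [rsum_per (x i) k H u]) (fun i u => abs_nonneg _)
      (fun p hp i hi => by
        obtain ⟨j, hj, hj'⟩ := h p hp i hi
        exact ⟨j, hj, hj'⟩)).trans ?_
    apply div_le_div_of_nonneg_right _ (Nat.cast_nonneg _)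
    apply Finset.prod_le_prod (fun i _ => Real.sqrt_nonneg _)
    intro i _
    have h2 := l2 P k H hP (x i) (hx i).2 (hx i).1
    have h3 : mean (∏ p ∈ P, p) (fun u => |rsum (x i) k H u| ^ 2) ≤
        H * (x i) * ((x i).divisors.card : ℝ) := by
      simp only [sq_abs]
      exact h2
    have h4 : (x i : ℝ) * mean (∏ p ∈ P, p) (fun u => |rsum (x i) k H u| ^ 2) ≤
        (x i : ℝ) ^ 2 * (H * ((x i).divisors.card : ℝ)) := by
      calc _ ≤ (x i : ℝ) * (H * (x i) * ((x i).divisors.card : ℝ)) :=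
            mul_le_mul_of_nonneg_left h3 (Nat.cast_nonneg _)
        _ = _ := by ring
    refine (Real.sqrt_le_sqrt h4).trans (le_of_eq ?_)
    rw [Real.sqrt_mul (sq_nonneg _), Real.sqrt_sq (Nat.cast_nonneg _),
      Real.sqrt_mul (Nat.cast_nonneg _)]

theorem mom : S_MOM := by
  classical
  intro m ε hm hε
  set η : ℝ := ε / (3 * m + 1) with hη
  have hden : (0 : ℝ) < 3 * m + 1 := by positivity
  have hη0 : 0 < η := div_pos hε hden
  obtain ⟨C1, hC1, hdiv⟩ := div_bound hη0
  obtain ⟨C2, hC2, hsum⟩ := sum (2 * m) η hη0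
  refine ⟨(1 + 1 / η) ^ (2 * m) * C1 ^ m * C2, by positivity, ?_⟩
  intro P D k H lam Λ hP hD hΛ hlam hl
  have hP' : ∀ p ∈ P, p.Prime := fun p hp => (hP p hp).1
  have hD1 : (1 : ℝ) ≤ D := by exact_mod_cast hD
  have hlog : 0 ≤ Real.log D := Real.log_nonneg hD1
  set R := ∏ p ∈ P, p with hR
  have h1 : mean R (fun u => cen lam D k H u ^ (2 * m)) =
      ∑ x ∈ Fintype.piFinset (fun _ : Fin (2 * m) => AA R D),
        (∏ i, ww lam D (x i)) * mean R (fun u => ∏ i, rsum (x i) k H u) := by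
    have h2 : (fun u => cen lam D k H u ^ (2 * m)) = fun u =>
        ∑ x ∈ Fintype.piFinset (fun _ : Fin (2 * m) => AA R D),
          (∏ i, ww lam D (x i)) * ∏ i, rsum (x i) k H u := by
      funext u
      rw [cen_eq hP' hl]
      have h3 := Finset.prod_univ_sum (fun _ : Fin (2 * m) => AA R D)
        (fun _ q => ww lam D q * rsum q k H u)
      rw [Finset.prod_const, Finset.card_univ, Fintype.card_fin] at h3
      rw [h3]
      refine Finset.sum_congr rfl fun x _ => ?_
      rw [Finset.prod_mul_distrib]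
    rw [h2, mean_sum]
    refine Finset.sum_congr rfl fun x _ => ?_
    rw [mean_const_mul]
  rw [h1]
  have h4 : ∀ x ∈ Fintype.piFinset (fun _ : Fin (2 * m) => AA R D),
      (∏ i, ww lam D (x i)) * mean R (fun u => ∏ i, rsum (x i) k H u) ≤
      ((Λ * (1 + Real.log D)) ^ (2 * m) * ((H : ℝ) ^ m * (C1 * (D : ℝ) ^ η) ^ m)) *
        (1 / ((univ.lcm x : ℕ) : ℝ)) := by
    intro x hx
    rw [Fintype.mem_piFinset] at hx
    have hx' : ∀ i, (1 < x i ∧ x i ≤ D) ∧ x i ∣ R := fun i => by
      have := hx i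
      rw [AA, Finset.mem_filter, Finset.mem_Icc] at this
      exact ⟨⟨by omega, this.1.2⟩, this.2⟩
    have h5 := tuple_le hP H (2 * m) x fun i => ⟨(hx' i).1.1, (hx' i).2⟩
    have h6 : |∏ i, ww lam D (x i)| ≤ ∏ i, (Λ * (1 + Real.log D) / (x i : ℝ)) := by
      rw [Finset.abs_prod]
      exact Finset.prod_le_prod (fun i _ => abs_nonneg _) fun i _ =>
        ww_le hΛ hlam (by have := (hx' i).1.1; omega)
    have hx0 : ∀ i, (x i : ℝ) ≠ 0 := fun i => by
      have := (hx' i).1.1
      exact_mod_cast (by omega : x i ≠ 0)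
    have hcard : (univ : Finset (Fin (2 * m))).card = 2 * m := by simp
    calc (∏ i, ww lam D (x i)) * mean R (fun u => ∏ i, rsum (x i) k H u)
        ≤ |∏ i, ww lam D (x i)| * |mean R (fun u => ∏ i, rsum (x i) k H u)| := by
          rw [← abs_mul]
          exact le_abs_self _
      _ ≤ (∏ i, (Λ * (1 + Real.log D) / (x i : ℝ))) *
          ((∏ i, ((x i : ℝ) * (Real.sqrt H * Real.sqrt ((x i).divisors.card)))) /
            ((univ.lcm x : ℕ) : ℝ)) :=
          mul_le_mul h6 h5 (abs_nonneg _) (Finset.prod_nonneg fun i _ => by positivity)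
      _ = (∏ i, ((Λ * (1 + Real.log D)) * (Real.sqrt H * Real.sqrt ((x i).divisors.card)))) *
            (1 / ((univ.lcm x : ℕ) : ℝ)) := by
          rw [← mul_div_assoc, ← Finset.prod_mul_distrib, ← mul_one_div]
          congr 1
          refine Finset.prod_congr rfl fun i _ => ?_
          have := hx0 i
          field_simp
      _ ≤ (∏ _i : Fin (2 * m), ((Λ * (1 + Real.log D)) * (Real.sqrt H *
            Real.sqrt (C1 * (D : ℝ) ^ η)))) * (1 / ((univ.lcm x : ℕ) : ℝ)) := by
          apply mul_le_mul_of_nonneg_right _ (by positivity)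
          apply Finset.prod_le_prod (fun i _ => by positivity)
          intro i _
          have h7 : ((x i).divisors.card : ℝ) ≤ C1 * (D : ℝ) ^ η := by
            refine (hdiv (x i) (by have := (hx' i).1.1; omega)).trans ?_
            have h8 : (x i : ℝ) ≤ D := by exact_mod_cast (hx' i).1.2
            gcongr
          have h9 := Real.sqrt_le_sqrt h7
          gcongr
      _ = _ := by
          rw [Finset.prod_const, hcard, mul_pow _ (Real.sqrt H * _), mul_pow (Real.sqrt H),
            pow_mul (Real.sqrt H), Real.sq_sqrt (Nat.cast_nonneg H),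
            pow_mul (Real.sqrt (C1 * (D : ℝ) ^ η)), Real.sq_sqrt (by positivity)]
  refine (Finset.sum_le_sum h4).trans ?_
  rw [← Finset.mul_sum]
  have h10 : ∑ x ∈ Fintype.piFinset (fun _ : Fin (2 * m) => AA R D),
      1 / ((univ.lcm x : ℕ) : ℝ) ≤ C2 * (D : ℝ) ^ η := by
    refine le_trans (Finset.sum_le_sum_of_subset_of_nonneg ?_ fun _ _ _ => by positivity)
      (hsum D hD)
    intro x hx
    rw [Fintype.mem_piFinset] at hx ⊢
    intro i
    have := hx i
    rw [AA, Finset.mem_filter, Finset.mem_Icc] at this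
    rw [Finset.mem_Icc]
    omega
  have h11 := one_log_le hη0 hD1
  have hDη : 0 ≤ (D : ℝ) ^ η := by positivity
  calc (Λ * (1 + Real.log D)) ^ (2 * m) * ((H : ℝ) ^ m * (C1 * (D : ℝ) ^ η) ^ m) *
        ∑ x ∈ Fintype.piFinset (fun _ : Fin (2 * m) => AA R D), 1 / ((univ.lcm x : ℕ) : ℝ)
      ≤ (Λ * ((1 + 1 / η) * (D : ℝ) ^ η)) ^ (2 * m) *
        ((H : ℝ) ^ m * (C1 * (D : ℝ) ^ η) ^ m) * (C2 * (D : ℝ) ^ η) := by
        gcongr
    _ = (1 + 1 / η) ^ (2 * m) * C1 ^ m * C2 * Λ ^ (2 * m) * (H : ℝ) ^ m *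
        (((D : ℝ) ^ η) ^ (2 * m) * ((D : ℝ) ^ η) ^ m * (D : ℝ) ^ η) := by
        rw [mul_pow, mul_pow, mul_pow]
        ring
    _ = _ := by
        have h12 : ((D : ℝ) ^ η) ^ (2 * m) * ((D : ℝ) ^ η) ^ m * (D : ℝ) ^ η = (D : ℝ) ^ ε := by
          rw [← pow_add, ← pow_succ, ← Real.rpow_natCast, ← Real.rpow_mul (by linarith)]
          congr 1
          push_cast
          rw [hη]
          field_simp
          ring
        rw [h12]

end Pool.Agent.P8H52.RP
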