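import Pool.Agent.P8H52.RP.Base

/-!
# Project RP: a prime which divides exactly one modulus makes the mean of the product vanish
-/

set_option autoImplicit false

namespace Pool.Agent.P8H52.RP

open Finset Pool.Agent.P8H73.RP

/-- the factor of `p` in Ramanujan's sum -/
noncomputable def FF (p : ℕ) (u : ℤ) : ℝ := (if (p : ℤ) ∣ u then (p : ℝ) else 0) - 1

lemma FF_per (p : ℕ) : Per p (FF p) := by
  intro u
  unfold FF
  have h : (p : ℤ) ∣ u + p ↔ (p : ℤ) ∣ u := dvd_add_left (dvd_refl _)
  simp only [h]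

lemma FF_sum {p : ℕ} (hp : 0 < p) : ∑ a ∈ range p, FF p a = 0 := by
  unfold FF
  rw [Finset.sum_sub_distrib, Finset.sum_const, Finset.card_range, nsmul_eq_mul, mul_one,
    Finset.sum_eq_single 0]
  · simp
  · intro a ha ha0
    rw [if_neg]
    intro h
    rw [Int.natCast_dvd_natCast] at h
    exact absurd (Nat.le_of_dvd (Nat.pos_of_ne_zero ha0) h) (not_le.mpr (Finset.mem_range.mp ha))
  · intro h
    exact absurd (Finset.mem_range.mpr hp) h

lemma rs_eq (q : ℕ) (u : ℤ) : rs q u = ∏ p ∈ q.primeFactors, FF p u := rfl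

lemma rs_per (q : ℕ) : Per q (rs q) := by
  intro u
  rw [rs_eq, rs_eq]
  refine Finset.prod_congr rfl fun p hp => ?_
  exact per_dvd (FF_per p) (Nat.dvd_of_mem_primeFactors hp) u

lemma rsum_per (q k H : ℕ) : Per q (rsum q k H) := by
  intro u
  unfold rsum
  refine Finset.sum_congr rfl fun j _ => ?_
  rw [show u + (q : ℤ) + k * j = (u + k * j) + q by ring]
  exact rs_per q _

lemma dvd_of_not {p q R : ℕ} (hp : p.Prime) (h : q ∣ p * R) (hq : ¬ p ∣ q) : q ∣ R :=
  ((Nat.Prime.coprime_iff_not_dvd hp).mpr hq).symm.dvd_of_dvd_mul_left h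

theorem van : S_VAN := by
  classical
  intro P k H hP t q hq p hp i hi hj
  have hpp := hP p hp
  set R := ∏ p ∈ P.erase p, p with hR
  have hRP : ∏ p ∈ P, p = p * R := (Finset.mul_prod_erase P (fun p => p) hp).symm
  have hcop : p.Coprime R := coprime_prod (fun x hx => hP x (Finset.mem_of_mem_erase hx)) hpp
    (Finset.notMem_erase p P)
  rw [hRP, mean_split]
  have key : ∀ b : ℤ, ∑ a ∈ range p, rsum (q i) k H (b + R * a) = 0 := by
    intro b
    unfold rsum
    rw [Finset.sum_comm]
    apply Finset.sum_eq_zero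
    intro j _
    have hmem : p ∈ (q i).primeFactors := by
      rw [Nat.mem_primeFactors]
      exact ⟨hpp, hi, fun h0 => by
        have h1 := hq i
        rw [h0, zero_dvd_iff] at h1
        exact (prod_pos hP).ne' h1⟩
    have h1 : ∀ a : ℕ, rs (q i) (b + R * a + k * j) =
        FF p ((b + k * j) + (R : ℤ) * a) * ∏ p' ∈ (q i).primeFactors.erase p, FF p' (b + k * j) := by
      intro a
      rw [rs_eq, ← Finset.mul_prod_erase _ _ hmem,
        show b + R * a + k * j = (b + k * j) + (R : ℤ) * a by ring]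
      congr 1
      refine Finset.prod_congr rfl fun p' hp' => ?_
      rw [Finset.mem_erase] at hp'
      apply per_const (FF_per p')
      have h2 : p' ∣ p * R := (Nat.dvd_of_mem_primeFactors hp'.2).trans (hRP ▸ hq i)
      refine dvd_of_not hpp h2 fun h3 => ?_
      exact hp'.1 ((Nat.prime_dvd_prime_iff_eq hpp (Nat.prime_of_mem_primeFactors hp'.2)).mp h3).symm
    rw [Finset.sum_congr rfl fun a _ => h1 a, ← Finset.sum_mul,
      sum_affine hpp.pos (FF_per p) _ _ (isUnit_of_coprime hcop), FF_sum hpp.pos, zero_mul]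
  have h2 : ∀ b : ℤ, (∑ a ∈ range p, ∏ j, rsum (q j) k H (b + R * a)) / p = 0 := by
    intro b
    have h3 : ∀ a : ℕ, ∏ j, rsum (q j) k H (b + R * a) =
        rsum (q i) k H (b + R * a) * ∏ j ∈ univ.erase i, rsum (q j) k H b := by
      intro a
      rw [← Finset.mul_prod_erase _ _ (Finset.mem_univ i)]
      congr 1
      refine Finset.prod_congr rfl fun j hj' => ?_
      exact per_const (rsum_per (q j) k H)
        (dvd_of_not hpp (hRP ▸ hq j) (hj j (Finset.mem_erase.mp hj').1)) _ _
    rw [Finset.sum_congr rfl fun a _ => h3 a, ← Finset.sum_mul, key, zero_mul, zero_div]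
  unfold mean
  simp only [h2, Finset.sum_const_zero, zero_div]

end Pool.Agent.P8H52.RP
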