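import Pool.Agent.P8H52.RP.Mom

/-!
# Project RP: the moments over windows
-/

set_option autoImplicit false

namespace Pool.Agent.P8H52.RP

open Finset Pool.Agent.P8H73.RP

/-- the part of one divisor -/
noncomputable def hh (lam : ℕ → ℝ) (k H d : ℕ) (u : ℤ) : ℝ :=
  lam d * ∑ j ∈ range H, ((if (d : ℤ) ∣ u + k * j then (1 : ℝ) else 0) - 1 / d)

lemma hh_per (lam : ℕ → ℝ) (k H d : ℕ) : Per d (hh lam k H d) := by
  intro u
  unfold hh
  congr 1
  refine Finset.sum_congr rfl fun j _ => ?_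
  congr 1
  have h1 : ((d : ℤ) ∣ u + d + k * j) ↔ ((d : ℤ) ∣ u + k * j) := by
    have : u + (d : ℤ) + k * j = (u + k * j) + d := by ring
    rw [this, dvd_add_self_right]
  simp only [h1]

lemma cen_hh (lam : ℕ → ℝ) (D k H : ℕ) (u : ℤ) :
    cen lam D k H u = ∑ d ∈ (Icc 1 D).filter (fun d => lam d ≠ 0), hh lam k H d u := by
  unfold cen
  rw [Finset.sum_comm, Finset.sum_filter_of_ne]
  · refine Finset.sum_congr rfl fun d _ => ?_
    unfold hh
    rw [Finset.mul_sum]
  · intro d _ h1 h2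
    apply h1
    unfold hh
    rw [h2, zero_mul]

theorem win : S_LS → S_WIN := by
  intro hLS m ε hm hε
  obtain ⟨C1, hC1, hls⟩ := hLS
  obtain ⟨C2, hC2, hmom⟩ := mom m ε hm hε
  refine ⟨C1 * C2, by positivity, ?_⟩
  intro P D k H lam Λ hP hD hΛ hlam hl X W
  have hP' : ∀ p ∈ P, p.Prime := fun p hp => (hP p hp).1
  set A := (Icc 1 D).filter (fun d => lam d ≠ 0) with hA
  have h1 : ∀ u : ℤ, cen lam D k H u ^ m =
      ∑ x ∈ Fintype.piFinset (fun _ : Fin m => A), ∏ i, hh lam k H (x i) u := by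
    intro u
    rw [cen_hh]
    have h3 := Finset.prod_univ_sum (fun _ : Fin m => A) (fun _ d => hh lam k H d u)
    rw [Finset.prod_const, Finset.card_univ, Fintype.card_fin] at h3
    exact h3
  have h2 : ∀ u : ℤ, cen lam D k H u ^ (2 * m) =
      (∑ x ∈ Fintype.piFinset (fun _ : Fin m => A), ∏ i, hh lam k H (x i) u) ^ 2 := by
    intro u
    rw [← h1, ← pow_mul, mul_comm]
  have h3 := hls (Fin m → ℕ) (Fintype.piFinset (fun _ : Fin m => A)) (∏ p ∈ P, p) (D ^ m)
    (fun x => univ.lcm x) (fun x u => ∏ i, hh lam k H (x i) u) (prod_pos hP')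
    (Nat.one_le_pow _ _ hD) (by
      intro x hx
      rw [Fintype.mem_piFinset] at hx
      have hx' : ∀ i, (1 ≤ x i ∧ x i ≤ D) ∧ lam (x i) ≠ 0 := fun i => by
        have := hx i
        rw [hA, Finset.mem_filter, Finset.mem_Icc] at this
        exact this
      refine ⟨lcm_pos fun i => (hx' i).1.1, lcm_le fun i => (hx' i).1,
        Finset.lcm_dvd fun i _ => hl _ (hx' i).2, ?_⟩
      intro u
      refine Finset.prod_congr rfl fun i _ => ?_
      exact per_dvd (hh_per lam k H (x i)) (Finset.dvd_lcm (Finset.mem_univ i)) u) X W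
  simp only [← h2] at h3
  refine h3.trans ?_
  have h4 := hmom P D k H lam Λ hP hD hΛ hlam hl
  have h5 : ((D ^ m : ℕ) : ℝ) ^ 2 = (D : ℝ) ^ (2 * m) := by
    push_cast
    rw [← pow_mul, mul_comm]
  rw [h5]
  calc C1 * (W + (D : ℝ) ^ (2 * m)) * mean (∏ p ∈ P, p) (fun u => cen lam D k H u ^ (2 * m))
      ≤ C1 * (W + (D : ℝ) ^ (2 * m)) * (C2 * Λ ^ (2 * m) * (H : ℝ) ^ m * (D : ℝ) ^ ε) :=
        mul_le_mul_of_nonneg_left h4 (by positivity)
    _ = _ := by ring

end Pool.Agent.P8H52.RP
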